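import Pool.Agent.Lib.MP_d7b9cc_gt.U.MMain

/-! All packings by balls of a ball times a punctured torus, in every dimension. -/

open scoped ContDiff

namespace Pool.Agent.Results.MP_d7b9cc_gt.AllPackings

/-- The standard symplectic form `∑ dxⱼ ∧ dyⱼ` on `ℂⁿ = ℝ²ⁿ`. -/
def sympForm {n : ℕ} (a b : Fin n → ℂ) : ℝ :=
  ∑ j, ((a j).re * (b j).im - (a j).im * (b j).re)

open Pool.Agent.Lib.BallT6 Pool.Agent.Lib.BallU Finset in
theorem result (N k : ℕ) (a b : ℝ) (r : Fin k → ℝ) (ha0 : 0 < a) (hb : 0 < b)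
    (ha : ∀ i, Real.pi * r i ^ 2 < a)
    (hv : ∑ i, (Real.pi * r i ^ 2) ^ (N + 1) < (N + 1) * a ^ N * b) :
    ∃ (U : Fin k → Set (Fin (N + 1) → ℂ)) (ψ : Fin k → (Fin (N + 1) → ℂ) → Fin (N + 1) → ℂ),
      (∀ i, IsOpen (U i) ∧
        (∀ z : Fin (N + 1) → ℂ, ∑ j, ‖z j‖ ^ 2 ≤ r i ^ 2 → z ∈ U i) ∧
        ContDiffOn ℝ ∞ (ψ i) (U i) ∧
        (∀ z ∈ U i, ∀ v w,
          sympForm (fderiv ℝ (ψ i) z v) (fderiv ℝ (ψ i) z w) = sympForm v w) ∧
        (∀ z ∈ U i, Real.pi * ∑ j : Fin N, ‖ψ i z j.succ‖ ^ 2 < a) ∧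
        ∀ z ∈ U i, ∀ m l : ℤ, ψ i z 0 ≠ (m : ℂ) * (b : ℂ) + (l : ℂ) * Complex.I) ∧
      ∀ i i', ∀ z ∈ U i, ∀ z' ∈ U i', (∀ j : Fin N, ψ i z j.succ = ψ i' z' j.succ) →
        (∃ m l : ℤ, ψ i' z' 0 - ψ i z 0 = (m : ℂ) * (b : ℂ) + (l : ℂ) * Complex.I) →
          i = i' ∧ z = z' := by
  let w : ℕ → ℝ := fun i => if h : i < k then Real.pi * r ⟨i, h⟩ ^ 2 else 0
  have hw : ∀ i : Fin k, w i = Real.pi * r i ^ 2 := fun i => dif_pos i.2
  have w0 : ∀ i, 0 ≤ w i := fun i => by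
    simp only [w]
    split_ifs
    · positivity
    · exact le_rfl
  obtain ⟨B, hB, m0, m1, m2⟩ := exists_mmesh N k (a := a) (b' := b) 1 1 w ha0
    (fun i hi => (hw ⟨i, hi⟩).trans_lt (ha _)) (by
      rw [← Fin.sum_univ_eq_sum_range (fun i => w i ^ (N + 1)), mul_right_comm]
      simpa only [hw] using hv)
  have hd : (0 : ℝ) < 1 / B := by positivity
  have m3 : ∑ i ∈ range k, (w i + 1 * (1 / B)) ^ (N + 1) < (N + 1) * a ^ N * b := by
    refine m2.trans_le ?_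
    rw [mul_right_comm]
    exact mul_le_mul_of_nonneg_right (mul_le_mul_of_nonneg_left
      (pow_le_pow_left₀ m0.le (by linarith) N) (by positivity)) hb.le
  obtain ⟨Ψ, A, C⟩ := balls_sharp (Fin (N + 1) → ℂ) N k (fun i => w i + 1 * (1 / B)) hb ha0
    (fun i => by linarith [w0 i]) (fun i hi => by linarith [m1 i (mem_range.2 hi)]) m3
  let Z : (Fin (N + 1) → ℂ) → ℕ → ℂ := fun x l => if h : l < N + 1 then x ⟨l, h⟩ else 0
  have hZ : ∀ x (j : Fin (N + 1)), Z x j = x j := fun x j => dif_pos j.2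
  have hT : ∀ x, ∑ l ∈ range (N + 1), mu (Z x l) = Real.pi * ∑ j, ‖x j‖ ^ 2 := fun x => by
    rw [← Fin.sum_univ_eq_sum_range (fun l => mu (Z x l)), mul_sum]
    exact sum_congr rfl fun j _ => by rw [hZ, mu_eq_norm]
  have hS : ∀ p, Sm (N + 1) Z p := fun p l hl => by
    simp only [Z, dif_pos hl]
    exact (contDiff_apply ℝ ℂ _).contDiffAt
  have hP : ∀ (F : (Fin (N + 1) → ℂ) → ℕ → ℂ) p, Sm (N + 1) F p → ∀ v w,
      sympForm (fderiv ℝ (fun x (j : Fin (N + 1)) => F x j) p v)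
        (fderiv ℝ (fun x (j : Fin (N + 1)) => F x j) p w) = PB (N + 1) F p v w := by
    intro F p h v w
    rw [fderiv_pi fun j : Fin (N + 1) => ContDiffAt.da (h j j.2)]
    exact Fin.sum_univ_eq_sum_range (fun l => pb (fun x => F x l) p v w) (N + 1)
  have hU : ∀ (i : Fin k) (z : Fin (N + 1) → ℂ), Real.pi * ∑ j, ‖z j‖ ^ 2 < w i + 1 * (1 / B) →
      ∑ l ∈ range (N + 1), mu (Z z l) ≤ w i + 1 * (1 / B) := fun i z hz => by
    rw [hT]
    exact hz.le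
  refine ⟨fun i => {z | Real.pi * ∑ j, ‖z j‖ ^ 2 < w i + 1 * (1 / B)}, fun i x j => Ψ i (Z x) j,
    fun i => ⟨isOpen_lt (by fun_prop) continuous_const, fun z hz => ?_, fun z hz => ?_,
      fun z hz v u => ?_, fun z hz => ?_, fun z hz => (A i _ (hU i z hz)).2.2⟩,
    fun i i' z hz z' hz' e ⟨m, l, e'⟩ => ?_⟩
  · refine (mul_le_mul_of_nonneg_left hz Real.pi_pos.le).trans_lt ?_
    rw [hw]
    linarith
  · exact (contDiffAt_pi.mpr fun j : Fin (N + 1) =>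
      ((A i _ (hU i z hz)).1 Z z rfl (hS z)).1 j j.2).contDiffWithinAt
  · obtain ⟨c, d⟩ := (A i _ (hU i z hz)).1 Z z rfl (hS z)
    rw [hP _ z c, d, ← hP Z z (hS z)]
    simp only [hZ]
    rw [fderiv_fun_id]
    rfl
  · have := (A i _ (hU i z hz)).2.1
    rw [← Fin.sum_univ_eq_sum_range (fun l => mu (Ψ i (Z z) (l + 1)))] at this
    simpa only [mu_eq_norm, mul_sum, Fin.val_succ] using this
  · obtain ⟨c, d⟩ := C i i' _ _ (hU i z hz) (hU i' z' hz') (fun j hj => e ⟨j, hj⟩) m l e'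
    refine ⟨c, funext fun j => ?_⟩
    rw [← hZ z, ← hZ z']
    exact d j j.2

end Pool.Agent.Results.MP_d7b9cc_gt.AllPackings
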