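import Pool.Agent.Lib.MP_d7b9cc_gt.Main

/-! One ball fills `B⁴(3) × T²(1)`. -/

open scoped ContDiff

namespace Pool.Agent.Results.MP_d7b9cc_gt.BallTimesTorus

/-- The standard symplectic form `∑ dxⱼ ∧ dyⱼ` on `ℂ³ = ℝ⁶`. -/
def sympForm (a b : ℂ × ℂ × ℂ) : ℝ :=
  (a.1.re * b.1.im - a.1.im * b.1.re) + (a.2.1.re * b.2.1.im - a.2.1.im * b.2.1.re) +
    (a.2.2.re * b.2.2.im - a.2.2.im * b.2.2.re)

open Pool.Agent.Lib.BallT6 in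
theorem result (r : ℝ) (hr : Real.pi * r ^ 2 < 3) :
    ∃ (U : Set (ℂ × ℂ × ℂ)) (ψ : ℂ × ℂ × ℂ → ℂ × ℂ × ℂ), IsOpen U ∧
      (∀ z : ℂ × ℂ × ℂ, ‖z.1‖ ^ 2 + ‖z.2.1‖ ^ 2 + ‖z.2.2‖ ^ 2 ≤ r ^ 2 → z ∈ U) ∧
      ContDiffOn ℝ ∞ ψ U ∧
      (∀ z ∈ U, ∀ v w, sympForm (fderiv ℝ ψ z v) (fderiv ℝ ψ z w) = sympForm v w) ∧
      (∀ z ∈ U, Real.pi * (‖(ψ z).1‖ ^ 2 + ‖(ψ z).2.1‖ ^ 2) < 3) ∧
      ∀ z ∈ U, ∀ z' ∈ U, (ψ z).1 = (ψ z').1 → (ψ z).2.1 = (ψ z').2.1 →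
        (∃ k l : ℤ, (ψ z').2.2 - (ψ z).2.2 = (k : ℂ) + (l : ℂ) * Complex.I) → z = z' := by
  obtain ⟨ρ, h1, h2⟩ := exists_between hr
  obtain ⟨ψ, a, b⟩ := ball_in_ball_torus h2
  refine ⟨{p | tot p < ρ}, ψ, isOpen_lt continuous_tot continuous_const, fun z hz => ?_,
    fun z hz => (a z (le_of_lt hz)).1.smooth.contDiffWithinAt,
    fun z hz v w => (a z (le_of_lt hz)).1.symp v w, fun z hz => ?_,
    fun z hz z' hz' f1 f2 ⟨k, l, e⟩ => b z z' (le_of_lt hz) (le_of_lt hz') f1 f2 k l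
      (by rw [← e]; simp)⟩
  · show mu z.1 + mu z.2.1 + mu z.2.2 < ρ
    rw [mu_eq_norm, mu_eq_norm, mu_eq_norm]
    nlinarith [Real.pi_pos]
  · have := (a z (le_of_lt hz)).2
    rw [mu_eq_norm, mu_eq_norm] at this
    linarith

end Pool.Agent.Results.MP_d7b9cc_gt.BallTimesTorus
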