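import Pool.Agent.Lib.MP_d7b9cc_gt.G5

/-! One ball fills `B^{2N}(N + 1) × T²(1)` in every dimension `2 (N + 1)`. -/

open scoped ContDiff

namespace Pool.Agent.Results.MP_d7b9cc_gt.BallTimesTorusAll

/-- The standard symplectic form `∑ dxⱼ ∧ dyⱼ` on `ℂⁿ = ℝ²ⁿ`. -/
def sympForm {n : ℕ} (a b : Fin n → ℂ) : ℝ :=
  ∑ j, ((a j).re * (b j).im - (a j).im * (b j).re)

open Pool.Agent.Lib.BallT6 Finset in
theorem result (N : ℕ) (r s : ℝ) (hr : Real.pi * r ^ 2 < N + 1) (hs : 1 ≤ s) :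
    ∃ (U : Set (Fin (N + 1) → ℂ)) (ψ : (Fin (N + 1) → ℂ) → Fin (N + 1) → ℂ), IsOpen U ∧
      (∀ z : Fin (N + 1) → ℂ, ∑ j, ‖z j‖ ^ 2 ≤ r ^ 2 → z ∈ U) ∧
      ContDiffOn ℝ ∞ ψ U ∧
      (∀ z ∈ U, ∀ v w, sympForm (fderiv ℝ ψ z v) (fderiv ℝ ψ z w) = sympForm v w) ∧
      (∀ z ∈ U, Real.pi * ∑ j : Fin N, ‖ψ z j.succ‖ ^ 2 < N + 1) ∧
      ∀ z ∈ U, ∀ z' ∈ U, (∀ j : Fin N, ψ z j.succ = ψ z' j.succ) →
        (∃ k l : ℤ, ψ z' 0 - ψ z 0 = (k : ℂ) + (l : ℂ) * (s : ℂ) * Complex.I) → z = z' := by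
  obtain ⟨ρ, h1, h2⟩ := exists_between hr
  obtain ⟨Ψ, a, b⟩ := ball_all (Fin (N + 1) → ℂ) N h2
  let Z : (Fin (N + 1) → ℂ) → ℕ → ℂ := fun x l => if h : l < N + 1 then x ⟨l, h⟩ else 0
  have hZ : ∀ x (j : Fin (N + 1)), Z x j = x j := fun x j => dif_pos j.2
  have hT : ∀ x, ∑ l ∈ range (N + 1), mu (Z x l) = Real.pi * ∑ j, ‖x j‖ ^ 2 := fun x => by
    rw [← Fin.sum_univ_eq_sum_range (fun l => mu (Z x l)), mul_sum]
    exact sum_congr rfl fun j _ => by rw [hZ, mu_eq_norm]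
  have hS : ∀ p, Sm (N + 1) Z p := fun p l hl => by
    simp only [Z, dif_pos hl]
    exact (contDiff_apply ℝ ℂ _).contDiffAt
  have hP : ∀ (F : (Fin (N + 1) → ℂ) → ℕ → ℂ) p, Sm (N + 1) F p → ∀ v w,
      sympForm (fderiv ℝ (fun x (j : Fin (N + 1)) => F x j) p v)
        (fderiv ℝ (fun x (j : Fin (N + 1)) => F x j) p w) = PB (N + 1) F p v w := by
    intro F p h v w
    rw [fderiv_pi fun j : Fin (N + 1) => ContDiffAt.da (h j j.2)]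
    exact Fin.sum_univ_eq_sum_range (fun l => pb (fun x => F x l) p v w) (N + 1)
  have hU : ∀ z : Fin (N + 1) → ℂ, Real.pi * ∑ j, ‖z j‖ ^ 2 < ρ →
      ∑ l ∈ range (N + 1), mu (Z z l) ≤ ρ := fun z hz => by rw [hT]; exact hz.le
  refine ⟨{z | Real.pi * ∑ j, ‖z j‖ ^ 2 < ρ}, fun x j => Ψ (Z x) j,
    isOpen_lt (by fun_prop) continuous_const,
    fun z hz => (mul_le_mul_of_nonneg_left hz Real.pi_pos.le).trans_lt h1, fun z hz => ?_,
    fun z hz v w => ?_, fun z hz => ?_, fun z hz z' hz' e ⟨k, l, e'⟩ => ?_⟩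
  · exact (contDiffAt_pi.mpr fun j : Fin (N + 1) =>
      ((a _ (hU z hz)).1 Z z rfl (hS z)).1 j j.2).contDiffWithinAt
  · obtain ⟨c, d⟩ := (a _ (hU z hz)).1 Z z rfl (hS z)
    rw [hP _ z c, d, ← hP Z z (hS z)]
    simp only [hZ]
    rw [fderiv_fun_id]
    rfl
  · have := (a _ (hU z hz)).2
    unfold QQ at this
    rw [← Fin.sum_univ_eq_sum_range (fun i => mu (Ψ (Z z) (i + 1)))] at this
    simpa only [mu_eq_norm, mul_sum, Fin.val_succ] using this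
  · obtain ⟨c, d⟩ := b _ _ (hU z hz) (hU z' hz') (fun i hi => e ⟨i, hi⟩) k (l * s)
      (by push_cast; exact e')
    have l0 : l = 0 := by
      by_contra hl
      have : (1 : ℝ) ≤ |(l : ℝ)| := by exact_mod_cast Int.one_le_abs hl
      rw [abs_mul, abs_of_pos (by linarith : 0 < s)] at c
      nlinarith
    funext j
    rw [← hZ z, ← hZ z']
    exact d (by simp [l0]) j j.2

end Pool.Agent.Results.MP_d7b9cc_gt.BallTimesTorusAll
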