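import Pool.Agent.Lib.MP_d7b9cc_gt.H3

/-! The four dimensional ball in a rectangle times a punctured torus, with sharp constants. -/

open scoped ContDiff

namespace Pool.Agent.Results.MP_d7b9cc_gt.DiscTimesPuncturedTorus

/-- The standard symplectic form `dx₁ ∧ dy₁ + dx₂ ∧ dy₂` on `ℂ² = ℝ⁴`. -/
def sympForm (v w : ℂ × ℂ) : ℝ :=
  (v.1.re * w.1.im - v.1.im * w.1.re) + (v.2.re * w.2.im - v.2.im * w.2.re)

open Pool.Agent.Lib.BallT6 Pool.Agent.Lib.BallPT in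
theorem result (a b r : ℝ) (hb : 0 < b) (ha : Real.pi * r ^ 2 < a)
    (hv : (Real.pi * r ^ 2) ^ 2 / 2 < a * b) :
    ∃ (U : Set (ℂ × ℂ)) (ψ : ℂ × ℂ → ℂ × ℂ), IsOpen U ∧
      (∀ z : ℂ × ℂ, ‖z.1‖ ^ 2 + ‖z.2‖ ^ 2 ≤ r ^ 2 → z ∈ U) ∧
      ContDiffOn ℝ ∞ ψ U ∧
      (∀ z ∈ U, ∀ v w, sympForm (fderiv ℝ ψ z v) (fderiv ℝ ψ z w) = sympForm v w) ∧
      (∀ z ∈ U, (ψ z).1.re ∈ Set.Ioo 0 a ∧ (ψ z).1.im ∈ Set.Ioo (0 : ℝ) 1) ∧
      (∀ z ∈ U, ∀ k l : ℤ, (ψ z).2 ≠ (k : ℂ) * (b : ℂ) + (l : ℂ) * Complex.I) ∧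
      ∀ z ∈ U, ∀ z' ∈ U, (ψ z).1 = (ψ z').1 →
        (∃ k l : ℤ, (ψ z').2 - (ψ z).2 = (k : ℂ) * (b : ℂ) + (l : ℂ) * Complex.I) → z = z' := by
  have h0 : 0 ≤ Real.pi * r ^ 2 := by positivity
  have h1 : Real.pi * r ^ 2 < Real.sqrt (2 * a * b) := Real.lt_sqrt_of_sq_lt (by linarith)
  obtain ⟨ρ, r1, r2⟩ := exists_between (lt_min ha h1)
  obtain ⟨F, G, hF, hG, s, x, y, i⟩ := ball_in hb (h0.trans r1.le) (lt_min_iff.mp r2).1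
    ((Real.lt_sqrt (h0.trans r1.le)).mp (lt_min_iff.mp r2).2)
  have c : Continuous mu := contDiff_mu.continuous
  refine ⟨{p | mu p.1 + mu p.2 < ρ}, fun p => (F p, G p),
    isOpen_lt ((c.comp continuous_fst).add (c.comp continuous_snd)) continuous_const,
    fun z hz => ?_, (hF.prodMk hG).contDiffOn, fun z _ v w => ?_, fun z hz => x z (le_of_lt hz),
    fun z _ => y z, fun z hz z' hz' e ⟨k, l, e'⟩ => i z z' (le_of_lt hz) (le_of_lt hz') e k l e'⟩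
  · show mu z.1 + mu z.2 < ρ
    rw [mu_eq_norm, mu_eq_norm]
    nlinarith [Real.pi_pos]
  · rw [((hF.differentiable (by simp) z).hasFDerivAt.prodMk
      (hG.differentiable (by simp) z).hasFDerivAt).fderiv]
    exact s z v w

end Pool.Agent.Results.MP_d7b9cc_gt.DiscTimesPuncturedTorus
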