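import Pool.Agent.Lib.MP_d7b9cc_gt.V.Main

/-! All packings by balls of a punctured torus times an ellipsoid with one long axis. -/

open scoped ContDiff

namespace Pool.Agent.Results.MP_d7b9cc_gt.EllipsoidPackings

/-- The standard symplectic form `∑ dxⱼ ∧ dyⱼ` on `ℂⁿ = ℝ²ⁿ`. -/
def sympForm {n : ℕ} (a b : Fin n → ℂ) : ℝ :=
  ∑ j, ((a j).re * (b j).im - (a j).im * (b j).re)

open Pool.Agent.Lib.BallT6 Pool.Agent.Lib.BallU Pool.Agent.Lib.BallV Finset in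
theorem result (N k m : ℕ) (a b : ℝ) (r : Fin k → ℝ) (hm : 0 < m) (ha0 : 0 < a) (hb : 0 < b)
    (ha : ∀ i, Real.pi * r i ^ 2 < a)
    (hv : ∑ i, (Real.pi * r i ^ 2) ^ (N + 2) < (N + 2) * m * a ^ (N + 1) * b) :
    ∃ (U : Fin k → Set (Fin (N + 2) → ℂ)) (ψ : Fin k → (Fin (N + 2) → ℂ) → Fin (N + 2) → ℂ),
      (∀ i, IsOpen (U i) ∧
        (∀ z : Fin (N + 2) → ℂ, ∑ j, ‖z j‖ ^ 2 ≤ r i ^ 2 → z ∈ U i) ∧
        ContDiffOn ℝ ∞ (ψ i) (U i) ∧
        (∀ z ∈ U i, ∀ v w,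
          sympForm (fderiv ℝ (ψ i) z v) (fderiv ℝ (ψ i) z w) = sympForm v w) ∧
        (∀ z ∈ U i, Real.pi * (∑ j : Fin N, ‖ψ i z j.castSucc.succ‖ ^ 2 +
          ‖ψ i z (Fin.last (N + 1))‖ ^ 2 / m) < a) ∧
        ∀ z ∈ U i, ∀ s t : ℤ, ψ i z 0 ≠ (s : ℂ) * (b : ℂ) + (t : ℂ) * Complex.I) ∧
      ∀ i i', ∀ z ∈ U i, ∀ z' ∈ U i', (∀ j : Fin (N + 1), ψ i z j.succ = ψ i' z' j.succ) →
        (∃ s t : ℤ, ψ i' z' 0 - ψ i z 0 = (s : ℂ) * (b : ℂ) + (t : ℂ) * Complex.I) →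
          i = i' ∧ z = z' := by
  obtain ⟨p, rfl⟩ : ∃ p, m = p + 1 := ⟨m - 1, by omega⟩
  let w : ℕ → ℝ := fun i => if h : i < k then Real.pi * r ⟨i, h⟩ ^ 2 else 0
  have hw : ∀ i : Fin k, w i = Real.pi * r i ^ 2 := fun i => dif_pos i.2
  have w0 : ∀ i, 0 ≤ w i := fun i => by
    simp only [w]
    split_ifs
    · positivity
    · exact le_rfl
  obtain ⟨B, hB, m0, m1, m2⟩ := exists_mmesh (N + 1) k (a := a) (b' := (p + 1) * b) 1 1 w ha0
    (fun i hi => (hw ⟨i, hi⟩).trans_lt (ha _)) (by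
      rw [← Fin.sum_univ_eq_sum_range (fun i => w i ^ (N + 1 + 1))]
      simp only [hw]
      refine hv.trans_eq ?_
      push_cast
      ring)
  have hd : (0 : ℝ) < 1 / B := by positivity
  have m3 : ∑ i ∈ range k, (w i + 1 * (1 / B)) ^ (N + 2) <
      (N + 2) * (p + 1) * a ^ (N + 1) * b := by
    refine m2.trans_le ((mul_le_mul_of_nonneg_left
      (pow_le_pow_left₀ m0.le (by linarith : a - 1 / B ≤ a) (N + 1)) (by positivity)).trans_eq ?_)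
    push_cast
    ring
  obtain ⟨Ψ, A, C⟩ := balls_ell (Fin (N + 2) → ℂ) N k p (fun i => w i + 1 * (1 / B)) hb ha0
    (fun i => by linarith [w0 i]) (fun i hi => by linarith [m1 i (mem_range.2 hi)]) m3
  let Z : (Fin (N + 2) → ℂ) → ℕ → ℂ := fun x l => if h : l < N + 2 then x ⟨l, h⟩ else 0
  have hZ : ∀ x (j : Fin (N + 2)), Z x j = x j := fun x j => dif_pos j.2
  have hT : ∀ x, ∑ l ∈ range (N + 2), mu (Z x l) = Real.pi * ∑ j, ‖x j‖ ^ 2 := fun x => by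
    rw [← Fin.sum_univ_eq_sum_range (fun l => mu (Z x l)), mul_sum]
    exact sum_congr rfl fun j _ => by rw [hZ, mu_eq_norm]
  have hS : ∀ y, Sm (N + 2) Z y := fun y l hl => by
    simp only [Z, dif_pos hl]
    exact (contDiff_apply ℝ ℂ _).contDiffAt
  have hP : ∀ (F : (Fin (N + 2) → ℂ) → ℕ → ℂ) y, Sm (N + 2) F y → ∀ v w,
      sympForm (fderiv ℝ (fun x (j : Fin (N + 2)) => F x j) y v)
        (fderiv ℝ (fun x (j : Fin (N + 2)) => F x j) y w) = PB (N + 2) F y v w := by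
    intro F y h v w
    rw [fderiv_pi fun j : Fin (N + 2) => ContDiffAt.da (h j j.2)]
    exact Fin.sum_univ_eq_sum_range (fun l => pb (fun x => F x l) y v w) (N + 2)
  have hU : ∀ (i : Fin k) (z : Fin (N + 2) → ℂ), Real.pi * ∑ j, ‖z j‖ ^ 2 < w i + 1 * (1 / B) →
      ∑ l ∈ range (N + 2), mu (Z z l) ≤ w i + 1 * (1 / B) := fun i z hz => by
    rw [hT]
    exact hz.le
  refine ⟨fun i => {z | Real.pi * ∑ j, ‖z j‖ ^ 2 < w i + 1 * (1 / B)}, fun i x j => Ψ i (Z x) j,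
    fun i => ⟨isOpen_lt (by fun_prop) continuous_const, fun z hz => ?_, fun z hz => ?_,
      fun z hz v u => ?_, fun z hz => ?_, fun z hz => (A i _ (hU i z hz)).2.2⟩,
    fun i i' z hz z' hz' e ⟨s, t, e'⟩ => ?_⟩
  · refine (mul_le_mul_of_nonneg_left hz Real.pi_pos.le).trans_lt ?_
    rw [hw]
    linarith
  · exact (contDiffAt_pi.mpr fun j : Fin (N + 2) =>
      ((A i _ (hU i z hz)).1 Z z rfl (hS z)).1 j j.2).contDiffWithinAt
  · obtain ⟨c, d⟩ := (A i _ (hU i z hz)).1 Z z rfl (hS z)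
    rw [hP _ z c, d, ← hP Z z (hS z)]
    simp only [hZ]
    rw [fderiv_fun_id]
    rfl
  · have := (A i _ (hU i z hz)).2.1
    simp only [mu_eq_norm] at this
    simp only [Fin.val_succ, Fin.val_castSucc, Fin.val_last]
    rw [mul_add, mul_sum, ← mul_div_assoc, Nat.cast_succ]
    exact this
  · obtain ⟨c, d⟩ := C i i' _ _ (hU i z hz) (hU i' z' hz') (fun j hj => e ⟨j, hj⟩) s t e'
    refine ⟨c, funext fun j => ?_⟩
    rw [← hZ z, ← hZ z']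
    exact d j j.2

end Pool.Agent.Results.MP_d7b9cc_gt.EllipsoidPackings
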