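import Pool.Agent.Lib.MP_d7b9cc_gt.Main

/-! One ball fills the rational torus `T²(3) × T²(3/2) × T²(1)` and its triangular twists. -/

open scoped ContDiff

namespace Pool.Agent.Retired.MP_d7b9cc_gt.TorusFilling

/-- The standard symplectic form `∑ dxⱼ ∧ dyⱼ` on `ℂ³ = ℝ⁶`. -/
def sympForm (a b : ℂ × ℂ × ℂ) : ℝ :=
  (a.1.re * b.1.im - a.1.im * b.1.re) + (a.2.1.re * b.2.1.im - a.2.1.im * b.2.1.re) +
    (a.2.2.re * b.2.2.im - a.2.2.im * b.2.2.re)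

/-- A subgroup of `ℂ³` that is triangular over the lattices `3ℤ + iℤ`, `(3/2)ℤ + iℤ`, `ℤ + iℤ`. -/
def Adapted (L : AddSubgroup (ℂ × ℂ × ℂ)) : Prop :=
  (∀ x ∈ L, ∃ k l : ℤ, x.1 = 3 * (k : ℂ) + (l : ℂ) * Complex.I) ∧
  (∀ x ∈ L, x.1 = 0 → ∃ k l : ℤ, x.2.1 = 3 / 2 * (k : ℂ) + (l : ℂ) * Complex.I) ∧
  (∀ x ∈ L, x.1 = 0 → x.2.1 = 0 → ∃ k l : ℤ, x.2.2 = (k : ℂ) + (l : ℂ) * Complex.I)

open Pool.Agent.Lib.BallT6 in
theorem result (r : ℝ) (hr : Real.pi * r ^ 2 < 3) :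
    ∃ (U : Set (ℂ × ℂ × ℂ)) (ψ : ℂ × ℂ × ℂ → ℂ × ℂ × ℂ), IsOpen U ∧
      (∀ z : ℂ × ℂ × ℂ, ‖z.1‖ ^ 2 + ‖z.2.1‖ ^ 2 + ‖z.2.2‖ ^ 2 ≤ r ^ 2 → z ∈ U) ∧
      ContDiffOn ℝ ∞ ψ U ∧
      (∀ z ∈ U, ∀ v w, sympForm (fderiv ℝ ψ z v) (fderiv ℝ ψ z w) = sympForm v w) ∧
      (∀ z ∈ U, (ψ z).1.re ∈ Set.Ioo (0 : ℝ) 3 ∧ (ψ z).1.im ∈ Set.Ioo (0 : ℝ) 1) ∧
      ∀ L : AddSubgroup (ℂ × ℂ × ℂ), Adapted L →
        ∀ z ∈ U, ∀ z' ∈ U, ψ z' - ψ z ∈ L → z = z' := by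
  obtain ⟨ρ, h1, h2⟩ := exists_between hr
  obtain ⟨ψ, a, b, c⟩ := ball_in_torus h2
  refine ⟨{p | tot p < ρ}, ψ, isOpen_lt continuous_tot continuous_const, fun z hz => ?_,
    fun z hz => (a z (le_of_lt hz)).1.smooth.contDiffWithinAt,
    fun z hz v w => (a z (le_of_lt hz)).1.symp v w, fun z hz => (a z (le_of_lt hz)).2,
    fun L hL z hz z' hz' h => ?_⟩
  · show mu z.1 + mu z.2.1 + mu z.2.2 < ρ
    rw [mu_eq_norm, mu_eq_norm, mu_eq_norm]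
    nlinarith [Real.pi_pos]
  · have hz1 : tot z ≤ ρ := le_of_lt hz
    have hz2 : tot z' ≤ ρ := le_of_lt hz'
    obtain ⟨k, l, e⟩ := hL.1 _ h
    have e1 : (ψ z' - ψ z).1 = 0 := by
      have r1 := congrArg Complex.re e
      have i1 := congrArg Complex.im e
      simp at r1 i1
      obtain ⟨-, ⟨p1, p2⟩, p3, p4⟩ := a z hz1
      obtain ⟨-, ⟨q1, q2⟩, q3, q4⟩ := a z' hz2
      have k1 : k < 1 := by
        have : (k : ℝ) < 1 := by linarith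
        exact_mod_cast this
      have k2 : -1 < k := by
        have : (-1 : ℝ) < k := by linarith
        exact_mod_cast this
      have l1 : l < 1 := by
        have : (l : ℝ) < 1 := by linarith
        exact_mod_cast this
      have l2 : -1 < l := by
        have : (-1 : ℝ) < l := by linarith
        exact_mod_cast this
      have k0 : k = 0 := by omega
      have l0 : l = 0 := by omega
      rw [e, k0, l0]
      simp
    have f1 : (ψ z).1 = (ψ z').1 := (sub_eq_zero.mp e1).symm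
    obtain ⟨k', l', e'⟩ := hL.2.1 _ h e1
    have f2 := b z z' hz1 hz2 f1 k' l' (by rw [← e']; simp)
    obtain ⟨k'', l'', e''⟩ := hL.2.2 _ h e1 (sub_eq_zero.mpr f2.symm)
    exact c z z' hz1 hz2 f1 f2 k'' l'' (by rw [← e'']; simp)

/-- Every triangular twist of the product lattice is adapted. -/
theorem adapted_closure (a b c d e f : ℂ) : Adapted (AddSubgroup.closure
    {((3 : ℂ), a, b), (Complex.I, c, d), (0, 3 / 2, e), (0, Complex.I, f), (0, 0, 1),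
      (0, 0, Complex.I)}) := by
  have key : ∀ x ∈ AddSubgroup.closure
      ({((3 : ℂ), a, b), (Complex.I, c, d), (0, 3 / 2, e), (0, Complex.I, f), (0, 0, 1),
        (0, 0, Complex.I)} : Set (ℂ × ℂ × ℂ)), ∃ k1 l1 k2 l2 k3 l3 : ℤ,
      x = (3 * (k1 : ℂ) + l1 * Complex.I, k1 * a + l1 * c + (3 / 2 * (k2 : ℂ) + l2 * Complex.I),
        k1 * b + l1 * d + k2 * e + l2 * f + ((k3 : ℂ) + l3 * Complex.I)) := by
    intro x hx
    induction hx using AddSubgroup.closure_induction with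
    | mem x hx =>
      simp only [Set.mem_insert_iff, Set.mem_singleton_iff] at hx
      rcases hx with rfl | rfl | rfl | rfl | rfl | rfl
      · exact ⟨1, 0, 0, 0, 0, 0, by simp⟩
      · exact ⟨0, 1, 0, 0, 0, 0, by simp⟩
      · exact ⟨0, 0, 1, 0, 0, 0, by simp⟩
      · exact ⟨0, 0, 0, 1, 0, 0, by simp⟩
      · exact ⟨0, 0, 0, 0, 1, 0, by simp⟩
      · exact ⟨0, 0, 0, 0, 0, 1, by simp⟩
    | zero => exact ⟨0, 0, 0, 0, 0, 0, by simp [Prod.ext_iff]⟩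
    | add x y _ _ hx hy =>
      obtain ⟨k1, l1, k2, l2, k3, l3, rfl⟩ := hx
      obtain ⟨k1', l1', k2', l2', k3', l3', rfl⟩ := hy
      refine ⟨k1 + k1', l1 + l1', k2 + k2', l2 + l2', k3 + k3', l3 + l3', ?_⟩
      simp only [Prod.mk_add_mk, Prod.mk.injEq]
      push_cast
      refine ⟨by ring, by ring, by ring⟩
    | neg x _ hx =>
      obtain ⟨k1, l1, k2, l2, k3, l3, rfl⟩ := hx
      refine ⟨-k1, -l1, -k2, -l2, -k3, -l3, ?_⟩
      simp only [Prod.neg_mk, Prod.mk.injEq]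
      push_cast
      refine ⟨by ring, by ring, by ring⟩
  have z1 : ∀ (t : ℝ) (k l : ℤ), t ≠ 0 → (t : ℂ) * (k : ℂ) + l * Complex.I = 0 → k = 0 ∧ l = 0 := by
    intro t k l ht h
    have r1 := congrArg Complex.re h
    have i1 := congrArg Complex.im h
    simp [ht] at r1 i1
    exact ⟨r1, i1⟩
  refine ⟨fun x hx => ?_, fun x hx h1 => ?_, fun x hx h1 h2 => ?_⟩
  · obtain ⟨k1, l1, k2, l2, k3, l3, rfl⟩ := key x hx
    exact ⟨k1, l1, rfl⟩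
  · obtain ⟨k1, l1, k2, l2, k3, l3, rfl⟩ := key x hx
    obtain ⟨rfl, rfl⟩ := z1 3 k1 l1 (by norm_num) (by exact_mod_cast h1)
    exact ⟨k2, l2, by simp⟩
  · obtain ⟨k1, l1, k2, l2, k3, l3, rfl⟩ := key x hx
    obtain ⟨rfl, rfl⟩ := z1 3 k1 l1 (by norm_num) (by exact_mod_cast h1)
    obtain ⟨rfl, rfl⟩ := z1 (3 / 2) k2 l2 (by norm_num) (by push_cast; simpa using h2)
    exact ⟨k3, l3, by simp⟩

end Pool.Agent.Retired.MP_d7b9cc_gt.TorusFilling
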